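import Pool.Agent.H571.JL.Uni

/-!
# The Selmer group conjecture over the function fields of base curves of arbitrary genus

Let `ℓ` be a prime, `k` an infinite finitely generated field of characteristic different from `ℓ`
with a primitive `ℓ`-th root of unity (for instance a number field), `K = k(t)`, and let `F` be any
polynomial over `K` of degree prime to `ℓ` without multiple roots and with all roots in `K`. Let `P(t)`
be a nonzero polynomial over `k`, and consider ALL the extensions `L = K(s 1, …, s u)` of `K` generated
by finitely many `ℓ`-th roots of polynomials `A i` all of whose prime factors divide `P`. By Kummer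
theory these are all the finite abelian extensions of `K` of exponent `ℓ` which are unramified outside
the zeros of `P` and `t = ∞` (infinitely many if `k^* / (k^*) ^ ℓ` is infinite), and every finite abelian
extension of `K` of exponent `ℓ` occurs for some `P`. The `L` are the function fields of curves of
unbounded genus (for `u = 1` the curves `s ^ ℓ = A(t)`, for `ℓ = 2` all the hyperelliptic curves),
including all the extensions `k'(t)` for the finite abelian extensions `k'` of `k` of exponent `ℓ`.

Theorem. There are irreducible polynomials `D(t)` of arbitrarily large degree such that the Selmer group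
conjecture for `ℓ` holds over all these `L` at once for the Jacobian `J` of the curve
`y ^ ℓ = D(t) F(x)`: every class of `ℓ`-power order in `H ^ 1 (L, J)` which is zero over the completions
of `L` at all the places not above `t = ∞` is killed by `ℓ ^ (2 u)`, and so the `ℓ`-adic Tate module of
the Tate-Shafarevich group of `J` over `L` is zero. If `k` is a number field this is true for 100 percent
of all polynomials `D(t)` of degree at most `n` with integral coefficients, for every `n ≥ 2` (`n ≥ 3` if
`ℓ = 2`).

(For `L = k(t)` only, these are the theorems `SuperellipticTwists` and `AlmostAllTwists` among the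
results for this problem; the arithmetic of the polynomials `D` and the sieve are those of these
theorems.)

Proof. Let `L' = L(s)`, `s ^ ℓ = A ∈ K`, `s ∉ L`, and let `f` be a locally trivial cocycle over `L'`.
For `i` modulo `ℓ` the curve `y ^ ℓ = A ^ i F(x)` becomes isomorphic to `y ^ ℓ = F(x)` over `L'` by
`y ↦ s ^ i y`. The corestriction to `L` of the image of `f` on the Jacobian of this curve is defined by
hand on the cocycles (`Pool.Agent.H571.JL.Cor`); `ℓ` times it is locally trivial over `L`
(`Pool.Agent.H571.JL.Cor2`). The sum over `i` of the restrictions to `L'` of the `ℓ` corestrictions,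
brought back to `J`, is cohomologous to the sum over `i` and `j` of `[ζ] ^ (± i j)` applied to the `j`-th
conjugate of `f`, that is to `ℓ f`, because the sum of the `[ζ] ^ i` is zero on `J`: the norm of an ideal
of the coordinate ring to the ring of polynomials in `x` is principal (`Pool.Agent.H571.JL.Tw`).
So `f` is killed by `ℓ ^ 2` times a number which kills the locally trivial classes over `L` for the `ℓ`
twists (`Pool.Agent.H571.JL.Stp`). The tower `K ⊂ K(s 1) ⊂ … ⊂ L` reduces all to the `ℓ ^ u` curves
`y ^ ℓ = D A 1 ^ e 1 ⋯ A u ^ e u F(x)` over `K` (`Pool.Agent.H571.JL.Gen`). Let `T` be the finite set of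
the primes which divide `P`, the leading coefficient of `F` or a difference of two roots of `F`. If a
constant times a product of powers of primes in `T` is an `ℓ`-th power modulo the irreducible polynomial
`D` only if all the exponents are divisible by `ℓ` and the constant is an `ℓ`-th power in `k`
(`Pool.Agent.H571.JL.GoodTwist`), then the Jacobians of all these curves have no nonzero locally trivial
classes of `ℓ`-power order, whatever the `A i` are (`Pool.Agent.H571.JL.Uni`). Almost all `D` have this
property if `k` is a number field, and in general there are such `D` of arbitrarily large degree.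
-/

set_option autoImplicit false
set_option linter.all false

open Polynomial NumberField IsDedekindDomain Pool.Agent.H571.JL

namespace Pool.Agent.Results.MP_1bdb59_nt.KummerBaseCurves

/-- The polynomial `c 0 + c 1 t + ... + c n t ^ n` over `k`. -/
noncomputable def twistPoly {k : Type} [Field k] {n : ℕ} (c : Fin (n + 1) → 𝓞 k) : k[X] :=
  ∑ i, C (algebraMap (𝓞 k) k (c i)) * X ^ (i : ℕ)

/-- 100 percent of the polynomials of degree at most `n` with integral coefficients, ordered by the
size of the coordinates of the coefficients for the integral basis `B`, have the property `Good`. -/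
def AlmostAll {k : Type} [Field k] [NumberField k] {I : Type} [Fintype I]
    (B : Module.Basis I ℤ (𝓞 k)) (n : ℕ) (Good : k[X] → Prop) : Prop :=
  ∀ η : ℝ, 0 < η → ∃ H₀ : ℕ, ∀ H : ℕ, H₀ ≤ H →
    ({c : Fin (n + 1) → 𝓞 k | (∀ i j, |B.repr (c i) j| ≤ (H : ℤ)) ∧
      ¬ Good (twistPoly c)}.ncard : ℝ) ≤ η * ((2 * (H : ℝ) + 1) ^ (n + 1)) ^ Fintype.card I

/-- `s` is an `ℓ`-th root of `d` in the separable closure of `K`. -/
def IsRoot {K : Type} [Field K] (ℓ : ℕ) (d : K) (s : SeparableClosure K) : Prop :=
  s ^ ℓ = algebraMap K (SeparableClosure K) d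

/-- The `s i` are `ℓ`-th roots of polynomials which divide powers of `P`. -/
def IsKummerOutside {k : Type} [Field k] (ℓ : ℕ) (P : k[X]) {u : ℕ}
    (s : Fin u → SeparableClosure (RatFunc k)) : Prop :=
  ∀ i, ∃ (A : k[X]) (m : ℕ), A ∣ P ^ m ∧ IsRoot ℓ (algebraMap k[X] (RatFunc k) A) (s i)

/-- Let `J` be the Jacobian of the curve `y ^ ℓ = F(x)` over `k(t)` and `L = k(t)(s 1, …, s u)`. The
classes of `ℓ`-power order in `H ^ 1 (L, J)`, which are zero over the completions of `L` at all the
places not above `t = ∞`, are killed by `ℓ ^ (2 u)`, and the `ℓ`-adic Tate module of the group of these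
classes is zero. -/
def SelmerConjectureOver {k : Type} [Field k] (ℓ : ℕ) (F : (RatFunc k)[X]) {u : ℕ}
    (s : Fin u → SeparableClosure (RatFunc k)) : Prop :=
  ShaPrimaryKilledBy ℓ F (Set.range s) k[X] (ℓ ^ (2 * u)) ∧ ShaTateTrivialOn ℓ F (Set.range s) k[X]

/-- `SelmerConjectureOver` for the curve `y ^ ℓ = D(t) F(x)` over all the extensions of `k(t)` generated
by finitely many `ℓ`-th roots of polynomials which divide powers of `P`. -/
def IsGood {k : Type} [Field k] (ℓ : ℕ) (P : k[X]) (F : (RatFunc k)[X]) (D : k[X]) : Prop :=
  ∀ (u : ℕ) (s : Fin u → SeparableClosure (RatFunc k)), IsKummerOutside ℓ P s →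
    SelmerConjectureOver ℓ (C (algebraMap k[X] (RatFunc k) D) * F) s

/-- `F` is a polynomial over `k(t)` of degree prime to `ℓ` without multiple roots and with all roots
in `k(t)`. -/
def IsSplit {k : Type} [Field k] (ℓ : ℕ) (F : (RatFunc k)[X]) : Prop :=
  F.Splits ∧ F.Separable ∧ ¬ ℓ ∣ F.natDegree

/-- For all number fields `k` with a primitive `ℓ`-th root of unity, all `F` as in `IsSplit`, all nonzero
`P` and `n ≥ 2` (`n ≥ 3` if `ℓ = 2`), 100 percent of the polynomials `D` of degree at most `n` with
integral coefficients are good. -/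
def NumberFieldCase (ℓ : ℕ) : Prop :=
  ∀ (k : Type) [Field k] [NumberField k] (I : Type) [Fintype I] (B : Module.Basis I ℤ (𝓞 k)) (ζ : k),
    IsPrimitiveRoot ζ ℓ → ∀ F : (RatFunc k)[X], IsSplit ℓ F → ∀ P : k[X], P ≠ 0 →
      ∀ n : ℕ, 2 ≤ n → (n = 2 → ℓ ≠ 2) → AlmostAll B n (IsGood ℓ P F)

/-- For all fields of fractions `k` of Dedekind domains with infinitely many maximal ideals (for instance
the infinite finitely generated fields) of characteristic different from `ℓ` with a primitive `ℓ`-th root
of unity, all `F` as in `IsSplit` and all nonzero `P` there are good monic irreducible polynomials `D` of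
arbitrarily large degree. -/
def GeneralCase (ℓ : ℕ) : Prop :=
  ∀ (O k : Type) [CommRing O] [IsDedekindDomain O] [Infinite (HeightOneSpectrum O)] [Field k]
    [Algebra O k] [IsFractionRing O k], (ℓ : k) ≠ 0 → ∀ ζ : k, IsPrimitiveRoot ζ ℓ →
      ∀ F : (RatFunc k)[X], IsSplit ℓ F → ∀ P : k[X], P ≠ 0 → ∀ N : ℕ,
        ∃ D : k[X], D.Monic ∧ Irreducible D ∧ N ≤ D.natDegree ∧ IsGood ℓ P F D

theorem result (ℓ : ℕ) (hℓ : ℓ.Prime) : NumberFieldCase ℓ ∧ GeneralCase ℓ := by
  constructor
  · intro k _ _ I _ B ζ hζ F hF P hP n hn hn2 η hη
    obtain ⟨H0, h0⟩ := Pool.Agent.H571.JL.almost_all_uni B hℓ hζ hF.1 hF.2.1 hF.2.2 hP hn hn2 hη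
    refine ⟨H0, fun H hH => ?_⟩
    rw [← pow_mul]
    refine le_trans (le_of_eq ?_) (h0 H hH)
    congr 2
    ext c
    simp only [Set.mem_setOf_eq]
    refine and_congr_right fun _ => not_congr ?_
    exact ⟨fun h u s hs => (h u s hs).1, fun h u s hs => ⟨h u s hs, tate_of_killed (h u s hs)⟩⟩
  · intro O k _ _ _ _ _ _ hk ζ hζ F hF P hP N
    obtain ⟨D, h1, h2, h3, h4⟩ := Pool.Agent.H571.JL.exists_uni (RatFunc k) (O := O)
      inferInstance hℓ hk hζ hF.1 hF.2.1 hF.2.2 hP N
    exact ⟨D, h1, h2, h3, fun u s hs => ⟨h4 u s hs, tate_of_killed (h4 u s hs)⟩⟩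

end Pool.Agent.Results.MP_1bdb59_nt.KummerBaseCurves
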